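import Mathlib

set_option autoImplicit false

/-!
Axis-parallel packings of finitely many rectangles.
-/

namespace Pool.Agent.Lib.MP_93723f_co

open Finset

variable {ι : Type} [LinearOrder ι]

/-- The rectangles `a i` (width) times `b i` (height), `i ∈ s`, have an axis-parallel packing
in the rectangle of width `u` and height `v`. -/
def Packs (s : Finset ι) (a b : ι → ℝ) (u v : ℝ) : Prop :=
  ∃ x y : ι → ℝ, (∀ i ∈ s, 0 ≤ x i ∧ x i + a i ≤ u ∧ 0 ≤ y i ∧ y i + b i ≤ v) ∧
    ∀ i ∈ s, ∀ j ∈ s, i ≠ j →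
      x i + a i ≤ x j ∨ x j + a j ≤ x i ∨ y i + b i ≤ y j ∨ y j + b j ≤ y i

omit [LinearOrder ι] in
theorem Packs.swap {s : Finset ι} {a b : ι → ℝ} {u v : ℝ} (h : Packs s a b u v) :
    Packs s b a v u := by
  obtain ⟨x, y, h1, h2⟩ := h
  refine ⟨y, x, fun i hi => ⟨(h1 i hi).2.2.1, (h1 i hi).2.2.2, (h1 i hi).1, (h1 i hi).2.1⟩, ?_⟩
  intro i hi j hj hij
  rcases h2 i hi j hj hij with h | h | h | h
  · exact Or.inr (Or.inr (Or.inl h))
  · exact Or.inr (Or.inr (Or.inr h))
  · exact Or.inl h
  · exact Or.inr (Or.inl h)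

omit [LinearOrder ι] in
theorem Packs.empty (a b : ι → ℝ) (u v : ℝ) : Packs ∅ a b u v :=
  ⟨fun _ => 0, fun _ => 0, by simp, by simp⟩

omit [LinearOrder ι] in
theorem Packs.single {a b : ι → ℝ} {u v : ℝ} (i : ι) (hu : a i ≤ u) (hv : b i ≤ v) :
    Packs {i} a b u v := by
  refine ⟨fun _ => 0, fun _ => 0, ?_, ?_⟩
  · intro j hj
    rw [Finset.mem_singleton] at hj
    subst hj
    simp [hu, hv]
  · intro j hj k hk hjk
    rw [Finset.mem_singleton] at hj hk
    exact absurd (hj.trans hk.symm) hjk

omit [LinearOrder ι] in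
theorem Packs.mono {s : Finset ι} {a b : ι → ℝ} {u v u' v' : ℝ} (h : Packs s a b u v)
    (hu : u ≤ u') (hv : v ≤ v') : Packs s a b u' v' := by
  obtain ⟨x, y, h1, h2⟩ := h
  exact ⟨x, y, fun i hi => ⟨(h1 i hi).1, (h1 i hi).2.1.trans hu, (h1 i hi).2.2.1,
    (h1 i hi).2.2.2.trans hv⟩, h2⟩

omit [LinearOrder ι] in
theorem Packs.scale {s : Finset ι} {a b : ι → ℝ} {u v : ℝ} (hu : 0 < u) (hv : 0 < v)
    (h : Packs s (fun i => a i / u) (fun i => b i / v) 1 1) : Packs s a b u v := by
  obtain ⟨x, y, h1, h2⟩ := h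
  refine ⟨fun i => u * x i, fun i => v * y i, ?_, ?_⟩
  · intro i hi
    obtain ⟨g1, g2, g3, g4⟩ := h1 i hi
    refine ⟨by positivity, ?_, by positivity, ?_⟩
    · have : u * (x i + a i / u) ≤ u * 1 := mul_le_mul_of_nonneg_left g2 hu.le
      have e : u * (x i + a i / u) = u * x i + a i := by field_simp
      simp only
      linarith
    · have : v * (y i + b i / v) ≤ v * 1 := mul_le_mul_of_nonneg_left g4 hv.le
      have e : v * (y i + b i / v) = v * y i + b i := by field_simp
      simp only
      linarith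
  · intro i hi j hj hij
    have eu : ∀ p q r : ℝ, p + q / u ≤ r → u * p + q ≤ u * r := by
      intro p q r hpq
      have : u * (p + q / u) ≤ u * r := mul_le_mul_of_nonneg_left hpq hu.le
      have e : u * (p + q / u) = u * p + q := by field_simp
      linarith
    have ev : ∀ p q r : ℝ, p + q / v ≤ r → v * p + q ≤ v * r := by
      intro p q r hpq
      have : v * (p + q / v) ≤ v * r := mul_le_mul_of_nonneg_left hpq hv.le
      have e : v * (p + q / v) = v * p + q := by field_simp
      linarith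
    rcases h2 i hi j hj hij with h | h | h | h
    · exact Or.inl (eu _ _ _ h)
    · exact Or.inr (Or.inl (eu _ _ _ h))
    · exact Or.inr (Or.inr (Or.inl (ev _ _ _ h)))
    · exact Or.inr (Or.inr (Or.inr (ev _ _ _ h)))

/-- two packings side by side -/
theorem Packs.hsplit {s t : Finset ι} {a b : ι → ℝ} {u₁ u₂ u v : ℝ}
    (h₁ : Packs s a b u₁ v) (h₂ : Packs t a b u₂ v) (hu₁ : 0 ≤ u₁) (hu₂ : 0 ≤ u₂)
    (hu : u₁ + u₂ ≤ u) (hst : Disjoint s t) : Packs (s ∪ t) a b u v := by
  obtain ⟨x, y, h1, h2⟩ := h₁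
  obtain ⟨x', y', h1', h2'⟩ := h₂
  refine ⟨fun i => if i ∈ s then x i else u₁ + x' i, fun i => if i ∈ s then y i else y' i,
    ?_, ?_⟩
  · intro i hi
    by_cases his : i ∈ s
    · simp only [his, if_true]
      obtain ⟨g1, g2, g3, g4⟩ := h1 i his
      exact ⟨g1, by linarith, g3, g4⟩
    · have hit : i ∈ t := (Finset.mem_union.mp hi).resolve_left his
      simp only [his, if_false]
      obtain ⟨g1, g2, g3, g4⟩ := h1' i hit
      exact ⟨by linarith, by linarith, g3, g4⟩
  · intro i hi j hj hij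
    by_cases his : i ∈ s
    · by_cases hjs : j ∈ s
      · simp only [his, hjs, if_true]
        exact h2 i his j hjs hij
      · have hjt : j ∈ t := (Finset.mem_union.mp hj).resolve_left hjs
        simp only [his, hjs, if_true, if_false]
        left
        have := (h1 i his).2.1
        have := (h1' j hjt).1
        linarith
    · have hit : i ∈ t := (Finset.mem_union.mp hi).resolve_left his
      by_cases hjs : j ∈ s
      · simp only [his, hjs, if_true, if_false]
        right; left
        have := (h1 j hjs).2.1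
        have := (h1' i hit).1
        linarith
      · have hjt : j ∈ t := (Finset.mem_union.mp hj).resolve_left hjs
        simp only [his, hjs, if_false]
        rcases h2' i hit j hjt hij with h | h | h | h
        · left; linarith
        · right; left; linarith
        · right; right; left; exact h
        · right; right; right; exact h

/-- two packings above each other -/
theorem Packs.vsplit {s t : Finset ι} {a b : ι → ℝ} {v₁ v₂ u v : ℝ}
    (h₁ : Packs s a b u v₁) (h₂ : Packs t a b u v₂) (hv₁ : 0 ≤ v₁) (hv₂ : 0 ≤ v₂)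
    (hv : v₁ + v₂ ≤ v) (hst : Disjoint s t) : Packs (s ∪ t) a b u v :=
  (h₁.swap.hsplit h₂.swap hv₁ hv₂ hv hst).swap

/-- Steinberg's condition. -/
def Cond (s : Finset ι) (a b : ι → ℝ) (u v : ℝ) : Prop :=
  (∀ i ∈ s, a i ≤ u ∧ b i ≤ v) ∧
    ∀ i ∈ s, ∀ j ∈ s, 2 * ∑ k ∈ s, a k * b k + max (2 * a i - u) 0 * max (2 * b j - v) 0 ≤ u * v

omit [LinearOrder ι] in
theorem Cond.swap {s : Finset ι} {a b : ι → ℝ} {u v : ℝ} (h : Cond s a b u v) :
    Cond s b a v u := by
  refine ⟨fun i hi => ⟨(h.1 i hi).2, (h.1 i hi).1⟩, ?_⟩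
  intro i hi j hj
  have := h.2 j hj i hi
  have e : ∑ k ∈ s, b k * a k = ∑ k ∈ s, a k * b k :=
    Finset.sum_congr rfl fun k _ => mul_comm _ _
  rw [e]
  linarith [mul_comm (max (2 * a j - u) 0) (max (2 * b i - v) 0), mul_comm u v]

/-- The order in which rectangles are stacked: larger `c` first, ties broken by the index. -/
def before (c : ι → ℝ) (i j : ι) : Prop := c j < c i ∨ (c i = c j ∧ i ≤ j)

theorem before_total (c : ι → ℝ) (i j : ι) : before c i j ∨ before c j i := by
  unfold before
  rcases lt_trichotomy (c i) (c j) with h | h | h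
  · exact Or.inr (Or.inl h)
  · rcases le_total i j with h' | h'
    · exact Or.inl (Or.inr ⟨h, h'⟩)
    · exact Or.inr (Or.inr ⟨h.symm, h'⟩)
  · exact Or.inl (Or.inl h)

theorem before_refl (c : ι → ℝ) (i : ι) : before c i i := Or.inr ⟨rfl, le_rfl⟩

theorem before_trans {c : ι → ℝ} {i j k : ι} (h : before c i j) (h' : before c j k) :
    before c i k := by
  unfold before at *
  rcases h with h | ⟨h, g⟩ <;> rcases h' with h' | ⟨h', g'⟩
  · exact Or.inl (h'.trans h)
  · exact Or.inl (by rw [← h']; exact h)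
  · exact Or.inl (by rw [h]; exact h')
  · exact Or.inr ⟨h.trans h', g.trans g'⟩

theorem before_antisymm {c : ι → ℝ} {i j : ι} (h : before c i j) (h' : before c j i) :
    i = j := by
  unfold before at *
  rcases h with h | ⟨h, g⟩ <;> rcases h' with h' | ⟨h', g'⟩
  · exact absurd h (not_lt.mpr h'.le)
  · exact absurd h (by rw [h']; exact lt_irrefl _)
  · exact absurd h' (by rw [h]; exact lt_irrefl _)
  · exact le_antisymm g g'

theorem before_le {c : ι → ℝ} {i j : ι} (h : before c i j) : c j ≤ c i := by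
  rcases h with h | ⟨h, -⟩
  · exact h.le
  · exact h.ge

/-- partial sums along the order -/
noncomputable def psum (W : Finset ι) (c d : ι → ℝ) (j : ι) : ℝ :=
  open Classical in ∑ l ∈ W.filter (fun l => before c l j), d l

theorem psum_le {W : Finset ι} {c d : ι → ℝ} (hd : ∀ i ∈ W, 0 ≤ d i) (j : ι) :
    psum W c d j ≤ ∑ l ∈ W, d l := by
  classical
  unfold psum
  exact Finset.sum_le_sum_of_subset_of_nonneg (Finset.filter_subset _ _)
    fun i hi _ => hd i hi

theorem le_psum {W : Finset ι} {c d : ι → ℝ} (hd : ∀ i ∈ W, 0 ≤ d i) {j : ι} (hj : j ∈ W) :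
    d j ≤ psum W c d j := by
  classical
  unfold psum
  apply Finset.single_le_sum (f := d)
  · intro i hi
    exact hd i (Finset.mem_filter.mp hi).1
  · exact Finset.mem_filter.mpr ⟨hj, before_refl c j⟩

theorem psum_step {W : Finset ι} {c d : ι → ℝ} (hd : ∀ i ∈ W, 0 ≤ d i) {i j : ι}
    (hj : j ∈ W) (hij : i ≠ j) (h : before c i j) :
    psum W c d i + d j ≤ psum W c d j := by
  classical
  unfold psum
  have h1 : j ∉ W.filter (fun l => before c l i) := by
    intro hm
    exact hij (before_antisymm h (Finset.mem_filter.mp hm).2)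
  rw [add_comm, ← Finset.sum_insert h1]
  apply Finset.sum_le_sum_of_subset_of_nonneg
  · intro l hl
    rw [Finset.mem_insert] at hl
    rcases hl with rfl | hl
    · exact Finset.mem_filter.mpr ⟨hj, before_refl c l⟩
    · rw [Finset.mem_filter] at hl ⊢
      exact ⟨hl.1, before_trans hl.2 h⟩
  · intro l hl _
    exact hd l (Finset.mem_filter.mp hl).1

/-- area of a sorted stack -/
theorem area_ge {W : Finset ι} {c d : ι → ℝ} (hd : ∀ i ∈ W, 0 ≤ d i) {m : ℝ}
    (hc : ∀ i ∈ W, m ≤ c i) (j : ι) :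
    c j * psum W c d j + m * (∑ l ∈ W, d l - psum W c d j) ≤ ∑ l ∈ W, c l * d l := by
  classical
  unfold psum
  have h1 := Finset.sum_filter_add_sum_filter_not W (fun l => before c l j) d
  have h2 := Finset.sum_filter_add_sum_filter_not W (fun l => before c l j) (fun l => c l * d l)
  have h3 : c j * ∑ l ∈ W.filter (fun l => before c l j), d l
      ≤ ∑ l ∈ W.filter (fun l => before c l j), c l * d l := by
    rw [Finset.mul_sum]
    apply Finset.sum_le_sum
    intro l hl
    rw [Finset.mem_filter] at hl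
    exact mul_le_mul_of_nonneg_right (before_le hl.2) (hd l hl.1)
  have h4 : m * ∑ l ∈ W.filter (fun l => ¬ before c l j), d l
      ≤ ∑ l ∈ W.filter (fun l => ¬ before c l j), c l * d l := by
    rw [Finset.mul_sum]
    apply Finset.sum_le_sum
    intro l hl
    rw [Finset.mem_filter] at hl
    exact mul_le_mul_of_nonneg_right (hc l hl.1) (hd l hl.1)
  have h5 : ∑ l ∈ W, d l - ∑ l ∈ W.filter (fun l => before c l j), d l
      = ∑ l ∈ W.filter (fun l => ¬ before c l j), d l := by linarith
  rw [h5]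
  linarith

end Pool.Agent.Lib.MP_93723f_co
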