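import Pool.Agent.Lib.MP_93723f_co.Steinberg

set_option autoImplicit false

/-!
Infinite families, by compactness, and the formulation with rigid motions.
-/

namespace Pool.Agent.Lib.MP_93723f_co

open Finset Filter Topology

/-- Compactness: arbitrary families whose finite subfamilies have total area at most `1/2`. -/
theorem inf_pack {ι : Type} (a b : ι → ℝ) (hb : ∀ i, 0 < b i)
    (hba : ∀ i, b i ≤ a i) (ha1 : ∀ i, a i ≤ 1)
    (hS : ∀ s : Finset ι, ∑ k ∈ s, a k * b k ≤ 1 / 2) :
    ∃ x y : ι → ℝ, (∀ i, 0 ≤ x i ∧ x i + a i ≤ 1 ∧ 0 ≤ y i ∧ y i + b i ≤ 1) ∧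
      ∀ i j, i ≠ j →
        x i + a i ≤ x j ∨ x j + a j ≤ x i ∨ y i + b i ≤ y j ∨ y j + b j ≤ y i := by
  classical
  let _ : LinearOrder ι := IsWellOrder.linearOrder WellOrderingRel
  have hfin : ∀ s : Finset ι, Packs s a b 1 1 := fun s =>
    square_pack s a b (fun i _ => hb i) (fun i _ => hba i) (fun i _ => ha1 i) (hS s)
  choose x y hxy1 hxy2 using hfin
  let 𝒰 : Ultrafilter (Finset ι) := Ultrafilter.of atTop
  have h𝒰 : (𝒰 : Filter (Finset ι)) ≤ atTop := Ultrafilter.of_le atTop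
  have hmem : ∀ i : ι, ∀ᶠ s in (𝒰 : Filter (Finset ι)), i ∈ s := by
    intro i
    apply h𝒰
    filter_upwards [eventually_ge_atTop ({i} : Finset ι)] with s hs
    exact hs (Finset.mem_singleton_self i)
  have hlim : ∀ (f : Finset ι → ι → ℝ), (∀ s, ∀ i ∈ s, 0 ≤ f s i ∧ f s i ≤ 1) →
      ∀ i, ∃ l : ℝ, Tendsto (fun s => f s i) 𝒰 (𝓝 l) := by
    intro f hf i
    have h1 : (𝒰.map fun s => f s i : Filter ℝ) ≤ 𝓟 (Set.Icc 0 1) := by
      rw [le_principal_iff]
      have h2 : ∀ᶠ s in (𝒰 : Filter (Finset ι)), f s i ∈ Set.Icc (0 : ℝ) 1 := by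
        filter_upwards [hmem i] with s hs
        exact hf s i hs
      exact h2
    obtain ⟨l, -, hl⟩ := isCompact_Icc.ultrafilter_le_nhds (𝒰.map fun s => f s i) h1
    exact ⟨l, hl⟩
  have hx := hlim x fun s i hi => ⟨(hxy1 s i hi).1, by
    have h1 := (hxy1 s i hi).2.1
    have h2 := hb i
    have h3 := hba i
    linarith⟩
  have hy := hlim y fun s i hi => ⟨(hxy1 s i hi).2.2.1, by
    have h1 := (hxy1 s i hi).2.2.2
    have h2 := hb i
    linarith⟩
  choose X hX using hx
  choose Y hY using hy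
  refine ⟨X, Y, ?_, ?_⟩
  · intro i
    refine ⟨?_, ?_, ?_, ?_⟩
    · refine ge_of_tendsto (hX i) ?_
      filter_upwards [hmem i] with s hs using (hxy1 s i hs).1
    · refine le_of_tendsto ((hX i).add_const (a i)) ?_
      filter_upwards [hmem i] with s hs using (hxy1 s i hs).2.1
    · refine ge_of_tendsto (hY i) ?_
      filter_upwards [hmem i] with s hs using (hxy1 s i hs).2.2.1
    · refine le_of_tendsto ((hY i).add_const (b i)) ?_
      filter_upwards [hmem i] with s hs using (hxy1 s i hs).2.2.2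
  · intro i j hij
    have hev : ∀ᶠ s in (𝒰 : Filter (Finset ι)),
        x s i + a i ≤ x s j ∨ x s j + a j ≤ x s i ∨ y s i + b i ≤ y s j ∨
          y s j + b j ≤ y s i := by
      filter_upwards [hmem i, hmem j] with s hi hj using hxy2 s i hi j hj hij
    rw [Ultrafilter.eventually_or, Ultrafilter.eventually_or, Ultrafilter.eventually_or] at hev
    rcases hev with h | h | h | h
    · exact Or.inl (le_of_tendsto_of_tendsto ((hX i).add_const (a i)) (hX j) h)
    · exact Or.inr (Or.inl (le_of_tendsto_of_tendsto ((hX j).add_const (a j)) (hX i) h))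
    · exact Or.inr (Or.inr (Or.inl
        (le_of_tendsto_of_tendsto ((hY i).add_const (b i)) (hY j) h)))
    · exact Or.inr (Or.inr (Or.inr
        (le_of_tendsto_of_tendsto ((hY j).add_const (b j)) (hY i) h)))

end Pool.Agent.Lib.MP_93723f_co
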