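import Pool.Agent.Lib.MP_93723f_co.Basic

set_option autoImplicit false

/-!
The stacking step: wide rectangles are stacked from the bottom, the ones which are too tall for
the remaining height hang from the top right corner.
-/

namespace Pool.Agent.Lib.MP_93723f_co

open Finset

variable {ι : Type} [LinearOrder ι]

theorem packs_stack {s : Finset ι} {a b : ι → ℝ} {u v : ℝ} (hu : 0 < u)
    (ha : ∀ i ∈ s, 0 < a i) (hb : ∀ i ∈ s, 0 < b i) (hau : ∀ i ∈ s, a i ≤ u)
    (hbv : ∀ i ∈ s, b i ≤ v) (hS : 2 * ∑ k ∈ s, a k * b k ≤ u * v)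
    (hconf : ∀ j ∈ s, ∀ i ∈ s, u / 2 < a j → a i ≤ u / 2 → v / 2 < b i →
      2 * ∑ k ∈ s, a k * b k + (2 * a j - u) * (2 * b i - v) ≤ u * v)
    (hwide : ∃ j ∈ s, u / 2 < a j)
    (ih : ∀ R : Finset ι, R ⊂ s → ∀ u' v' : ℝ, Cond R a b u' v' → Packs R a b u' v') :
    Packs s a b u v := by
  classical
  set W := s.filter (fun i => u / 2 < a i) with hW
  set H := ∑ l ∈ W, b l with hH
  set T := s.filter (fun i => a i ≤ u / 2 ∧ v - H < b i) with hT
  set X := ∑ l ∈ T, a l with hX
  set R := s.filter (fun i => a i ≤ u / 2 ∧ b i ≤ v - H) with hR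
  have memW : ∀ {i}, i ∈ W ↔ i ∈ s ∧ u / 2 < a i := by intro i; rw [hW, Finset.mem_filter]
  have memT : ∀ {i}, i ∈ T ↔ i ∈ s ∧ a i ≤ u / 2 ∧ v - H < b i := by
    intro i; rw [hT, Finset.mem_filter]
  have memR : ∀ {i}, i ∈ R ↔ i ∈ s ∧ a i ≤ u / 2 ∧ b i ≤ v - H := by
    intro i; rw [hR, Finset.mem_filter]
  -- areas
  have hsum : ∑ k ∈ s, a k * b k
      = ∑ k ∈ W, a k * b k + ∑ k ∈ T, a k * b k + ∑ k ∈ R, a k * b k := by
    have d1 : Disjoint W T := by
      rw [Finset.disjoint_left]
      intro i h1 h2
      have := (memW.mp h1).2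
      have := (memT.mp h2).2.1
      linarith
    have d2 : Disjoint (W ∪ T) R := by
      rw [Finset.disjoint_left]
      intro i h1 h2
      obtain ⟨-, g1, g2⟩ := memR.mp h2
      rcases Finset.mem_union.mp h1 with h1 | h1
      · have := (memW.mp h1).2
        linarith
      · have := (memT.mp h1).2.2
        linarith
    have e : s = (W ∪ T) ∪ R := by
      ext i
      rw [Finset.mem_union, Finset.mem_union, memW, memT, memR]
      constructor
      · intro hi
        by_cases h1 : u / 2 < a i
        · exact Or.inl (Or.inl ⟨hi, h1⟩)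
        · by_cases h2 : b i ≤ v - H
          · exact Or.inr ⟨hi, not_lt.mp h1, h2⟩
          · exact Or.inl (Or.inr ⟨hi, not_lt.mp h1, not_le.mp h2⟩)
      · tauto
    conv_lhs => rw [e]
    rw [Finset.sum_union d2, Finset.sum_union d1]
  have hWb : ∀ i ∈ W, 0 ≤ b i := fun i hi => (hb i (memW.mp hi).1).le
  have hTa : ∀ i ∈ T, 0 ≤ a i := fun i hi => (ha i (memT.mp hi).1).le
  have hSW : u / 2 * H ≤ ∑ k ∈ W, a k * b k := by
    rw [hH, Finset.mul_sum]
    apply Finset.sum_le_sum
    intro i hi
    exact mul_le_mul_of_nonneg_right (memW.mp hi).2.le (hWb i hi)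
  have hST : (v - H) * X ≤ ∑ k ∈ T, a k * b k := by
    rw [hX, Finset.mul_sum]
    apply Finset.sum_le_sum
    intro i hi
    rw [mul_comm (a i)]
    exact mul_le_mul_of_nonneg_right (memT.mp hi).2.2.le (hTa i hi)
  have hST0 : 0 ≤ ∑ k ∈ T, a k * b k :=
    Finset.sum_nonneg fun i hi =>
      mul_nonneg (ha i (memT.mp hi).1).le (hb i (memT.mp hi).1).le
  have hSR0 : 0 ≤ ∑ k ∈ R, a k * b k :=
    Finset.sum_nonneg fun i hi =>
      mul_nonneg (ha i (memR.mp hi).1).le (hb i (memR.mp hi).1).le
  have hHv : H ≤ v := by
    by_contra hlt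
    push Not at hlt
    have : u * v < u * H := mul_lt_mul_of_pos_left hlt hu
    linarith
  have hX0 : 0 ≤ X := Finset.sum_nonneg hTa
  have hXu : X ≤ u / 2 := by
    by_cases hTe : T.Nonempty
    · have hlt : (v - H) * X < ∑ k ∈ T, a k * b k := by
        rw [hX, Finset.mul_sum]
        apply Finset.sum_lt_sum_of_nonempty hTe
        intro i hi
        rw [mul_comm (a i)]
        exact mul_lt_mul_of_pos_right (memT.mp hi).2.2 (ha i (memT.mp hi).1)
      by_contra hlt'
      push Not at hlt'
      have : (v - H) * (u / 2) ≤ (v - H) * X := mul_le_mul_of_nonneg_left hlt'.le (by linarith)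
      nlinarith
    · rw [Finset.not_nonempty_iff_eq_empty] at hTe
      rw [hX, hTe, Finset.sum_empty]
      linarith
  -- no conflicts
  have hWa : ∀ i ∈ W, u / 2 ≤ a i := fun i hi => (memW.mp hi).2.le
  have hT0 : ∀ i ∈ T, (0 : ℝ) ≤ b i := fun i hi => (hb i (memT.mp hi).1).le
  have key : ∀ j ∈ W, ∀ i ∈ T, psum W a b j ≤ v - b i ∨ a j ≤ u - psum T b a i := by
    intro j hj i hi
    by_contra hcon
    push Not at hcon
    obtain ⟨hc1, hc2⟩ := hcon
    have g1 := area_ge hWb hWa j
    have g2 := area_ge (W := T) (c := b) (d := a) hTa hT0 i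
    have e2 : ∑ l ∈ T, b l * a l = ∑ l ∈ T, a l * b l :=
      Finset.sum_congr rfl fun l _ => mul_comm _ _
    rw [e2] at g2
    have g3 := psum_le (c := a) hWb j
    have g4 := psum_le (c := b) hTa i
    have g5 := le_psum (c := a) hWb hj
    have g6 := le_psum (c := b) hTa hi
    have hbj : 0 < b j := hb j (memW.mp hj).1
    have hbi : 0 < b i := hb i (memT.mp hi).1
    have hai : 0 < a i := ha i (memT.mp hi).1
    have haj : 0 < a j := ha j (memW.mp hj).1
    have hbiv : b i ≤ v := hbv i (memT.mp hi).1
    have haju : a j ≤ u := hau j (memW.mp hj).1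
    set Y := psum W a b j
    set Z := psum T b a i
    have hY0 : 0 < Y := by linarith
    have hZ0 : 0 < Z := by linarith
    have hrest : 0 ≤ u / 2 * (H - Y) := mul_nonneg (by linarith) (by linarith)
    have g7 : a j * Y + b i * Z ≤ ∑ k ∈ s, a k * b k := by
      rw [hsum]
      linarith
    by_cases hbi2 : b i ≤ v / 2
    · have p1 : (u - Z) * Y < a j * Y := mul_lt_mul_of_pos_right (by linarith) hY0
      have p2 : (v - Y) * Z < b i * Z := mul_lt_mul_of_pos_right (by linarith) hZ0
      have p3 : 0 ≤ (Y - v / 2) * (u - 2 * Z) := mul_nonneg (by linarith) (by linarith)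
      nlinarith
    · push Not at hbi2
      have hcf := hconf j (memW.mp hj).1 i (memT.mp hi).1 (memW.mp hj).2
        (memT.mp hi).2.1 hbi2
      have p1 : a j * (v - b i) < a j * Y := mul_lt_mul_of_pos_left (by linarith) haj
      have p2 : b i * (u - a j) < b i * Z := mul_lt_mul_of_pos_left (by linarith) hbi
      nlinarith
  -- the rest
  have hRs : R ⊂ s := by
    refine ⟨Finset.filter_subset _ _, ?_⟩
    obtain ⟨j, hj, hj2⟩ := hwide
    intro hsub
    have := (memR.mp (hsub hj)).2.1
    linarith
  have hCR : Cond R a b (u - X) (v - H) := by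
    refine ⟨?_, ?_⟩
    · intro i hi
      obtain ⟨-, g1, g2⟩ := memR.mp hi
      exact ⟨by linarith, g2⟩
    · intro i hi j hj
      obtain ⟨-, g1, g2⟩ := memR.mp hi
      obtain ⟨-, g3, g4⟩ := memR.mp hj
      have m1 : max (2 * a i - (u - X)) 0 ≤ X := max_le (by linarith) hX0
      have m2 : max (2 * b j - (v - H)) 0 ≤ v - H := max_le (by linarith) (by linarith)
      have m3 : max (2 * a i - (u - X)) 0 * max (2 * b j - (v - H)) 0 ≤ X * (v - H) :=
        mul_le_mul m1 m2 (le_max_right _ _) hX0
      rw [hsum] at hS
      nlinarith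
  obtain ⟨x, y, hxy1, hxy2⟩ := ih R hRs (u - X) (v - H) hCR
  refine ⟨fun i => if u / 2 < a i then 0 else if v - H < b i then u - psum T b a i else x i,
    fun i => if u / 2 < a i then psum W a b i - b i else if v - H < b i then v - b i
      else H + y i, ?_, ?_⟩
  · intro i hi
    by_cases h1 : u / 2 < a i
    · have hiW : i ∈ W := memW.mpr ⟨hi, h1⟩
      simp only [h1, if_true]
      have := le_psum (c := a) hWb hiW
      have := psum_le (c := a) hWb i
      exact ⟨le_rfl, by linarith [hau i hi], by linarith, by linarith⟩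
    · by_cases h2 : v - H < b i
      · have hiT : i ∈ T := memT.mpr ⟨hi, not_lt.mp h1, h2⟩
        simp only [h1, h2, if_true, if_false]
        have := le_psum (c := b) hTa hiT
        have := psum_le (c := b) hTa i
        exact ⟨by linarith, by linarith, by linarith [hbv i hi], by linarith⟩
      · have hiR : i ∈ R := memR.mpr ⟨hi, not_lt.mp h1, not_lt.mp h2⟩
        simp only [h1, h2, if_false]
        obtain ⟨g1, g2, g3, g4⟩ := hxy1 i hiR
        have hH0 : 0 ≤ H := Finset.sum_nonneg hWb
        exact ⟨g1, by linarith, by linarith, by linarith⟩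
  · intro i hi j hj hij
    by_cases hi1 : u / 2 < a i
    · have hiW : i ∈ W := memW.mpr ⟨hi, hi1⟩
      by_cases hj1 : u / 2 < a j
      · have hjW : j ∈ W := memW.mpr ⟨hj, hj1⟩
        simp only [hi1, hj1, if_true]
        rcases before_total a i j with h | h
        · right; right; left
          have := psum_step (c := a) hWb hjW hij h
          linarith
        · right; right; right
          have := psum_step (c := a) hWb hiW (Ne.symm hij) h
          linarith
      · by_cases hj2 : v - H < b j
        · have hjT : j ∈ T := memT.mpr ⟨hj, not_lt.mp hj1, hj2⟩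
          simp only [hi1, hj1, hj2, if_true, if_false]
          rcases key i hiW j hjT with h | h
          · right; right; left; linarith
          · left; linarith
        · have hjR : j ∈ R := memR.mpr ⟨hj, not_lt.mp hj1, not_lt.mp hj2⟩
          simp only [hi1, hj1, hj2, if_true, if_false]
          right; right; left
          have := psum_le (c := a) hWb i
          have := (hxy1 j hjR).2.2.1
          linarith
    · by_cases hi2 : v - H < b i
      · have hiT : i ∈ T := memT.mpr ⟨hi, not_lt.mp hi1, hi2⟩
        by_cases hj1 : u / 2 < a j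
        · have hjW : j ∈ W := memW.mpr ⟨hj, hj1⟩
          simp only [hi1, hi2, hj1, if_true, if_false]
          rcases key j hjW i hiT with h | h
          · right; right; right; linarith
          · right; left; linarith
        · by_cases hj2 : v - H < b j
          · have hjT : j ∈ T := memT.mpr ⟨hj, not_lt.mp hj1, hj2⟩
            simp only [hi1, hi2, hj1, hj2, if_true, if_false]
            rcases before_total b i j with h | h
            · right; left
              have := psum_step (c := b) hTa hjT hij h
              linarith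
            · left
              have := psum_step (c := b) hTa hiT (Ne.symm hij) h
              linarith
          · have hjR : j ∈ R := memR.mpr ⟨hj, not_lt.mp hj1, not_lt.mp hj2⟩
            simp only [hi1, hi2, hj1, hj2, if_true, if_false]
            right; left
            have := psum_le (c := b) hTa i
            have := (hxy1 j hjR).2.1
            linarith
      · have hiR : i ∈ R := memR.mpr ⟨hi, not_lt.mp hi1, not_lt.mp hi2⟩
        by_cases hj1 : u / 2 < a j
        · have hjW : j ∈ W := memW.mpr ⟨hj, hj1⟩
          simp only [hi1, hi2, hj1, if_true, if_false]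
          right; right; right
          have := psum_le (c := a) hWb j
          have := (hxy1 i hiR).2.2.1
          linarith
        · by_cases hj2 : v - H < b j
          · have hjT : j ∈ T := memT.mpr ⟨hj, not_lt.mp hj1, hj2⟩
            simp only [hi1, hi2, hj1, hj2, if_true, if_false]
            left
            have := psum_le (c := b) hTa j
            have := (hxy1 i hiR).2.1
            linarith
          · have hjR : j ∈ R := memR.mpr ⟨hj, not_lt.mp hj1, not_lt.mp hj2⟩
            simp only [hi1, hi2, hj1, hj2, if_false]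
            rcases hxy2 i hiR j hjR hij with h | h | h | h
            · left; exact h
            · right; left; exact h
            · right; right; left; linarith
            · right; right; right; linarith

end Pool.Agent.Lib.MP_93723f_co
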