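import Pool.Agent.Lib.MP_93723f_co.Stack

set_option autoImplicit false

/-!
Steinberg's packing theorem (for axis-parallel packings without rotation), with a shortened
proof, and the packing of rectangles of total area at most `1/2` in the unit square.
-/

namespace Pool.Agent.Lib.MP_93723f_co

open Finset

variable {ι : Type} [LinearOrder ι]

/-- splitting the unit square by a vertical line -/
theorem split_pack {s G₁ G₂ : Finset ι} {a b : ι → ℝ}
    (ha2 : ∀ i ∈ s, a i ≤ 1 / 2) (hb2 : ∀ i ∈ s, b i ≤ 1 / 2)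
    (ih : ∀ R : Finset ι, R ⊂ s → ∀ u v : ℝ, Cond R a b u v → Packs R a b u v)
    (hd : Disjoint G₁ G₂) (hU : G₁ ∪ G₂ = s) (h1 : G₁.Nonempty) (h2 : G₂.Nonempty)
    (hS : ∑ k ∈ s, a k * b k ≤ 1 / 2)
    (hS2 : ∑ k ∈ G₂, a k * b k ≤ 1 / 4) (hS1 : ∑ k ∈ G₁, a k * b k ≤ 3 / 8)
    (ha4 : ∀ i ∈ G₂, a i ≤ 1 / 4) : Packs s a b 1 1 := by
  have hsum : ∑ k ∈ s, a k * b k = ∑ k ∈ G₁, a k * b k + ∑ k ∈ G₂, a k * b k := by
    rw [← hU, Finset.sum_union hd]
  have hG1 : G₁ ⊂ s := by
    refine ⟨by rw [← hU]; exact Finset.subset_union_left, ?_⟩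
    intro hsub
    obtain ⟨i, hi⟩ := h2
    have : i ∈ s := by rw [← hU]; exact Finset.mem_union_right _ hi
    exact (Finset.disjoint_left.mp hd) (hsub this) hi
  have hG2 : G₂ ⊂ s := by
    refine ⟨by rw [← hU]; exact Finset.subset_union_right, ?_⟩
    intro hsub
    obtain ⟨i, hi⟩ := h1
    have : i ∈ s := by rw [← hU]; exact Finset.mem_union_left _ hi
    exact (Finset.disjoint_left.mp hd) hi (hsub this)
  set S1 := ∑ k ∈ G₁, a k * b k
  set S2 := ∑ k ∈ G₂, a k * b k
  have hmb : ∀ j ∈ s, max (2 * b j - 1) 0 = 0 := fun j hj => by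
    rw [max_eq_right]
    linarith [hb2 j hj]
  obtain ⟨u₁, hu1, hu2, hu3, hu4⟩ : ∃ u₁ : ℝ, 1 / 2 ≤ u₁ ∧ 2 * S1 ≤ u₁ ∧ 2 * S2 ≤ 1 - u₁ ∧
      1 / 4 ≤ 1 - u₁ := by
    rcases le_total (1 / 2) (2 * S1) with h | h
    · exact ⟨2 * S1, h, le_rfl, by linarith, by linarith⟩
    · exact ⟨1 / 2, le_rfl, h, by linarith, by norm_num⟩
  have c1 : Cond G₁ a b u₁ 1 := by
    refine ⟨fun i hi => ⟨by linarith [ha2 i (hG1.1 hi)], by linarith [hb2 i (hG1.1 hi)]⟩, ?_⟩
    intro i hi j hj
    rw [hmb j (hG1.1 hj)]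
    linarith
  have c2 : Cond G₂ a b (1 - u₁) 1 := by
    refine ⟨fun i hi => ⟨by linarith [ha4 i hi], by linarith [hb2 i (hG2.1 hi)]⟩, ?_⟩
    intro i hi j hj
    rw [hmb j (hG2.1 hj)]
    linarith
  rw [← hU]
  exact (ih G₁ hG1 _ _ c1).hsplit (ih G₂ hG2 _ _ c2) (by linarith) (by linarith)
    (by linarith) hd

/-- existence of a good split -/
theorem split_case {s : Finset ι} {a b : ι → ℝ} (ha : ∀ i ∈ s, 0 < a i)
    (hb : ∀ i ∈ s, 0 < b i) (ha2 : ∀ i ∈ s, a i ≤ 1 / 2) (hb2 : ∀ i ∈ s, b i ≤ 1 / 2)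
    (hS : ∑ k ∈ s, a k * b k ≤ 1 / 2) (hcard : 2 ≤ s.card)
    (ih : ∀ R : Finset ι, R ⊂ s → ∀ u v : ℝ, Cond R a b u v → Packs R a b u v)
    (hC : ∃ i ∈ s, a i ≤ 1 / 4)
    (hA : ∑ k ∈ s.filter (fun i => 1 / 4 < a i), a k * b k ≤ 3 / 8) : Packs s a b 1 1 := by
  classical
  have hpos : ∀ i ∈ s, 0 < a i * b i := fun i hi => mul_pos (ha i hi) (hb i hi)
  have hsmall : ∀ i ∈ s, a i ≤ 1 / 4 → a i * b i ≤ 1 / 8 := by
    intro i hi h4
    have := ha i hi
    have := hb2 i hi
    have := hb i hi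
    nlinarith
  -- candidates for the second part
  let 𝒞 : Finset (Finset ι) := s.powerset.filter fun G =>
    G.Nonempty ∧ G ≠ s ∧ (∀ i ∈ G, a i ≤ 1 / 4) ∧ ∑ k ∈ G, a k * b k ≤ 1 / 4
  have hmem : ∀ {G : Finset ι}, G ∈ 𝒞 ↔ G ⊆ s ∧ G.Nonempty ∧ G ≠ s ∧
      (∀ i ∈ G, a i ≤ 1 / 4) ∧ ∑ k ∈ G, a k * b k ≤ 1 / 4 := by
    intro G
    rw [Finset.mem_filter, Finset.mem_powerset]
  have hne : 𝒞.Nonempty := by
    obtain ⟨c, hc, hc4⟩ := hC
    refine ⟨{c}, hmem.mpr ⟨by simpa using hc, by simp, ?_, by simpa using hc4, ?_⟩⟩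
    · intro h
      rw [← h] at hcard
      simp at hcard
    · rw [Finset.sum_singleton]
      linarith [hsmall c hc hc4]
  obtain ⟨G, hG, hmax⟩ := Finset.exists_max_image 𝒞 Finset.card hne
  obtain ⟨hGs, hGne, hGns, hG4, hGS⟩ := hmem.mp hG
  have hd : Disjoint (s \ G) G := Finset.sdiff_disjoint
  have hU : (s \ G) ∪ G = s := Finset.sdiff_union_of_subset hGs
  have hne1 : (s \ G).Nonempty := by
    rw [Finset.nonempty_iff_ne_empty]
    intro h
    rw [Finset.sdiff_eq_empty_iff_subset] at h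
    exact hGns (Finset.Subset.antisymm hGs h)
  have hsum : ∑ k ∈ s, a k * b k = ∑ k ∈ s \ G, a k * b k + ∑ k ∈ G, a k * b k :=
    (Finset.sum_sdiff hGs).symm
  refine split_pack ha2 hb2 ih hd hU hne1 hGne hS hGS ?_ hG4
  by_cases hex : ∃ c ∈ s \ G, a c ≤ 1 / 4
  · obtain ⟨c, hc, hc4⟩ := hex
    rw [Finset.mem_sdiff] at hc
    have hins : insert c G ∉ 𝒞 := by
      intro h
      have := hmax _ h
      rw [Finset.card_insert_of_notMem hc.2] at this
      omega
    have hor : insert c G = s ∨ 1 / 4 < ∑ k ∈ insert c G, a k * b k := by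
      by_contra hcon
      push Not at hcon
      apply hins
      refine hmem.mpr ⟨?_, by simp, hcon.1, ?_, hcon.2⟩
      · intro i hi
        rcases Finset.mem_insert.mp hi with rfl | hi
        · exact hc.1
        · exact hGs hi
      · intro i hi
        rcases Finset.mem_insert.mp hi with rfl | hi
        · exact hc4
        · exact hG4 i hi
    rcases hor with h | h
    · have : s \ G = {c} := by
        rw [← h]
        ext i
        simp only [mem_sdiff, mem_insert, mem_singleton]
        constructor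
        · tauto
        · rintro rfl
          exact ⟨Or.inl rfl, hc.2⟩
      rw [this, Finset.sum_singleton]
      linarith [hsmall c hc.1 hc4]
    · rw [Finset.sum_insert hc.2] at h
      linarith [hsmall c hc.1 hc4]
  · push Not at hex
    refine le_trans (Finset.sum_le_sum_of_subset_of_nonneg ?_ ?_) hA
    · intro i hi
      exact Finset.mem_filter.mpr ⟨(Finset.mem_sdiff.mp hi).1, hex i hi⟩
    · intro i hi _
      exact (hpos i (Finset.mem_filter.mp hi).1).le

/-- two medium rectangles above each other -/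
theorem pair_case {s : Finset ι} {a b : ι → ℝ}
    (ha2 : ∀ i ∈ s, a i ≤ 1 / 2) (hb2 : ∀ i ∈ s, b i ≤ 1 / 2)
    (ih : ∀ R : Finset ι, R ⊂ s → ∀ u v : ℝ, Cond R a b u v → Packs R a b u v)
    {i k : ι} (hi : i ∈ s) (hk : k ∈ s) (hik : i ≠ k) {M : ℝ} (hM0 : 0 ≤ M) (hM : M ≤ 1 / 2)
    (hiM : a i ≤ M) (hkM : a k ≤ M)
    (hS : 2 * (∑ k ∈ s, a k * b k - a i * b i - a k * b k) ≤ 1 - M) : Packs s a b 1 1 := by
  classical
  set R := (s.erase i).erase k with hR
  have hk' : k ∈ s.erase i := Finset.mem_erase.mpr ⟨Ne.symm hik, hk⟩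
  have hRs : R ⊂ s := (Finset.erase_ssubset hk').trans (Finset.erase_ssubset hi)
  have hsum : ∑ k ∈ s, a k * b k = a i * b i + (a k * b k + ∑ l ∈ R, a l * b l) := by
    rw [← Finset.add_sum_erase s _ hi, ← Finset.add_sum_erase _ _ hk']
  have hU : s = ({i} ∪ {k}) ∪ R := by
    ext l
    simp only [hR, mem_union, mem_singleton, mem_erase]
    constructor
    · intro hl
      by_cases h1 : l = i
      · exact Or.inl (Or.inl h1)
      · by_cases h2 : l = k
        · exact Or.inl (Or.inr h2)
        · exact Or.inr ⟨h2, h1, hl⟩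
    · rintro ((rfl | rfl) | ⟨-, -, hl⟩)
      · exact hi
      · exact hk
      · exact hl
  have hd1 : Disjoint ({i} : Finset ι) {k} := by simpa using hik
  have hd2 : Disjoint ({i} ∪ {k}) R := by
    rw [Finset.disjoint_left]
    intro l h1 h2
    simp only [hR, mem_union, mem_singleton, mem_erase] at h1 h2
    tauto
  have p1 : Packs ({i} ∪ {k}) a b M 1 :=
    (Packs.single i hiM (hb2 i hi)).vsplit (Packs.single k hkM (hb2 k hk)) (by norm_num)
      (by norm_num) (by norm_num) hd1
  have cR : Cond R a b (1 - M) 1 := by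
    refine ⟨fun l hl => ⟨by linarith [ha2 l (hRs.1 hl)], by linarith [hb2 l (hRs.1 hl)]⟩, ?_⟩
    intro l hl j hj
    have : max (2 * b j - 1) 0 = 0 := by
      rw [max_eq_right]
      linarith [hb2 j (hRs.1 hj)]
    rw [this]
    linarith
  rw [hU]
  exact p1.hsplit (ih R hRs _ _ cR) hM0 (by linarith) (by linarith) hd2

/-- the case where all rectangles are at most half as wide and as tall as the container -/
theorem small_case {s : Finset ι} {a b : ι → ℝ} (ha : ∀ i ∈ s, 0 < a i)
    (hb : ∀ i ∈ s, 0 < b i) (ha2 : ∀ i ∈ s, a i ≤ 1 / 2) (hb2 : ∀ i ∈ s, b i ≤ 1 / 2)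
    (hS : ∑ k ∈ s, a k * b k ≤ 1 / 2)
    (ih : ∀ R : Finset ι, R ⊂ s → ∀ u v : ℝ, Cond R a b u v → Packs R a b u v) :
    Packs s a b 1 1 := by
  classical
  rcases Nat.lt_or_ge s.card 2 with hcard | hcard
  · rcases Nat.lt_or_ge s.card 1 with h | h
    · have : s = ∅ := Finset.card_eq_zero.mp (by omega)
      rw [this]
      exact Packs.empty _ _ _ _
    · obtain ⟨i, hi⟩ := Finset.card_eq_one.mp (show s.card = 1 by omega)
      have him : i ∈ s := by rw [hi]; simp
      rw [hi]
      exact Packs.single i (by linarith [ha2 i him]) (by linarith [hb2 i him])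
  have ih' : ∀ R : Finset ι, R ⊂ s → ∀ u v : ℝ, Cond R b a u v → Packs R b a u v :=
    fun R hR u v hc => (ih R hR v u hc.swap).swap
  have hSs : ∑ k ∈ s, b k * a k ≤ 1 / 2 := by
    rw [Finset.sum_congr rfl fun k _ => mul_comm (b k) (a k)]
    exact hS
  by_cases h1 : (∃ i ∈ s, a i ≤ 1 / 4) ∧
      ∑ k ∈ s.filter (fun i => 1 / 4 < a i), a k * b k ≤ 3 / 8
  · exact split_case ha hb ha2 hb2 hS hcard ih h1.1 h1.2
  by_cases h2 : (∃ i ∈ s, b i ≤ 1 / 4) ∧
      ∑ k ∈ s.filter (fun i => 1 / 4 < b i), b k * a k ≤ 3 / 8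
  · exact (split_case hb ha hb2 ha2 hSs hcard ih' h2.1 h2.2).swap
  -- two rectangles with all sides larger than 1/4
  have hpos : ∀ i ∈ s, 0 ≤ a i * b i := fun i hi => (mul_pos (ha i hi) (hb i hi)).le
  set A := s.filter (fun i => 1 / 4 < a i) with hA
  set B := s.filter (fun i => 1 / 4 < b i) with hB
  have hA' : A = s ∨ 3 / 8 < ∑ k ∈ A, a k * b k := by
    by_contra hcon
    push Not at hcon
    apply h1
    refine ⟨?_, hcon.2⟩
    by_contra hno
    push Not at hno
    exact hcon.1 (Finset.filter_true_of_mem hno)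
  have hB' : B = s ∨ 3 / 8 < ∑ k ∈ B, a k * b k := by
    by_contra hcon
    push Not at hcon
    apply h2
    refine ⟨?_, ?_⟩
    · by_contra hno
      push Not at hno
      exact hcon.1 (Finset.filter_true_of_mem hno)
    · rw [Finset.sum_congr rfl fun k _ => mul_comm (b k) (a k)]
      exact hcon.2
  have hcardD : 2 ≤ (A ∩ B).card := by
    by_contra hlt
    have hle1 : (A ∩ B).card ≤ 1 := by omega
    have hD4 : ∑ k ∈ A ∩ B, a k * b k ≤ 1 / 4 := by
      have : Nonempty ι := ⟨(Finset.card_pos.mp (show 0 < s.card by omega)).choose⟩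
      rcases Finset.card_le_one_iff_subset_singleton.mp hle1 with ⟨i, hi⟩
      rcases Finset.subset_singleton_iff.mp hi with h | h
      · rw [h, Finset.sum_empty]; norm_num
      · rw [h, Finset.sum_singleton]
        have him : i ∈ s := by
          have : i ∈ A ∩ B := by rw [h]; simp
          exact (Finset.mem_filter.mp (Finset.mem_inter.mp this).1).1
        have := ha i him
        have := hb i him
        have := ha2 i him
        have := hb2 i him
        nlinarith
    rcases hA' with hA' | hA'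
    · have e : A ∩ B = B := by
        rw [hA']
        exact Finset.inter_eq_right.mpr (Finset.filter_subset _ _)
      rcases hB' with hB' | hB'
      · rw [e, hB'] at hle1
        omega
      · rw [e] at hD4
        linarith
    · rcases hB' with hB' | hB'
      · have e : A ∩ B = A := by
          rw [hB']
          exact Finset.inter_eq_left.mpr (Finset.filter_subset _ _)
        rw [e] at hD4
        linarith
      · have hun : ∑ k ∈ A ∪ B, a k * b k ≤ ∑ k ∈ s, a k * b k := by
          apply Finset.sum_le_sum_of_subset_of_nonneg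
          · exact Finset.union_subset (Finset.filter_subset _ _) (Finset.filter_subset _ _)
          · intro i hi _
            exact hpos i hi
        have := Finset.sum_union_inter (s₁ := A) (s₂ := B) (f := fun k => a k * b k)
        linarith
  obtain ⟨i, hi, k, hk, hik⟩ := Finset.one_lt_card.mp (show 1 < (A ∩ B).card by omega)
  rw [Finset.mem_inter, hA, hB, Finset.mem_filter, Finset.mem_filter] at hi hk
  obtain ⟨⟨his, hia⟩, -, hib⟩ := hi
  obtain ⟨⟨hks, hka⟩, -, hkb⟩ := hk
  have ai2 := ha2 i his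
  have ak2 := ha2 k hks
  have bi2 := hb2 i his
  have bk2 := hb2 k hks
  by_cases hc1 : 2 * (∑ k ∈ s, a k * b k - a i * b i - a k * b k) ≤ 1 - max (a i) (a k)
  · exact pair_case ha2 hb2 ih his hks hik (le_trans (by linarith) (le_max_left _ _))
      (max_le ai2 ak2) (le_max_left _ _) (le_max_right _ _) hc1
  by_cases hc2 : 2 * (∑ k ∈ s, b k * a k - b i * a i - b k * a k) ≤ 1 - max (b i) (b k)
  · exact (pair_case hb2 ha2 ih' his hks hik (le_trans (by linarith) (le_max_left _ _))
      (max_le bi2 bk2) (le_max_left _ _) (le_max_right _ _) hc2).swap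
  exfalso
  rw [Finset.sum_congr rfl fun k _ => mul_comm (b k) (a k)] at hc2
  push Not at hc1 hc2
  have f1 : a i * b i + a k * b k < max (a i) (a k) / 2 := by linarith
  have f2 : a i * b i + a k * b k < max (b i) (b k) / 2 := by linarith
  have q1 : 0 < (a i - 1 / 4) * (b i - 1 / 4) := mul_pos (by linarith) (by linarith)
  have q2 : 0 < (a k - 1 / 4) * (b k - 1 / 4) := mul_pos (by linarith) (by linarith)
  rcases le_total (a i) (a k) with h | h <;> rcases le_total (b i) (b k) with h' | h'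
  · rw [max_eq_right h] at f1
    rw [max_eq_right h'] at f2
    have : 1 / 16 < a i * b i := by nlinarith
    nlinarith
  · rw [max_eq_right h] at f1
    rw [max_eq_left h'] at f2
    nlinarith
  · rw [max_eq_left h] at f1
    rw [max_eq_right h'] at f2
    nlinarith
  · rw [max_eq_left h] at f1
    rw [max_eq_left h'] at f2
    have : 1 / 16 < a k * b k := by nlinarith
    nlinarith

/-- Steinberg's theorem. -/
theorem steinberg (s : Finset ι) : ∀ a b : ι → ℝ, (∀ i ∈ s, 0 < a i) → (∀ i ∈ s, 0 < b i) →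
    ∀ u v : ℝ, Cond s a b u v → Packs s a b u v := by
  induction s using Finset.strongInduction with
  | H s ih =>
    intro a b ha hb u v hC
    rcases Finset.eq_empty_or_nonempty s with rfl | hne
    · exact Packs.empty _ _ _ _
    obtain ⟨i0, hi0⟩ := hne
    have hu : 0 < u := lt_of_lt_of_le (ha i0 hi0) (hC.1 i0 hi0).1
    have hv : 0 < v := lt_of_lt_of_le (hb i0 hi0) (hC.1 i0 hi0).2
    have hS : 2 * ∑ k ∈ s, a k * b k ≤ u * v := by
      have h1 := hC.2 i0 hi0 i0 hi0
      have h2 : 0 ≤ max (2 * a i0 - u) 0 * max (2 * b i0 - v) 0 :=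
        mul_nonneg (le_max_right _ _) (le_max_right _ _)
      linarith
    by_cases hw : ∃ j ∈ s, u / 2 < a j
    · refine packs_stack hu ha hb (fun i hi => (hC.1 i hi).1) (fun i hi => (hC.1 i hi).2) hS
        ?_ hw ?_
      · intro j hj i hi h1 _ h3
        have h4 := hC.2 j hj i hi
        rw [max_eq_left (by linarith), max_eq_left (by linarith)] at h4
        exact h4
      · intro R hR u' v' hc
        exact ih R hR a b (fun i hi => ha i (hR.1 hi)) (fun i hi => hb i (hR.1 hi)) u' v' hc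
    by_cases ht : ∃ j ∈ s, v / 2 < b j
    · have hCs := hC.swap
      have hS' : 2 * ∑ k ∈ s, b k * a k ≤ v * u := by
        rw [Finset.sum_congr rfl fun k _ => mul_comm (b k) (a k)]
        linarith [mul_comm u v]
      refine (packs_stack hv hb ha (fun i hi => (hCs.1 i hi).1)
        (fun i hi => (hCs.1 i hi).2) hS' ?_ ht ?_).swap
      · intro j hj i hi h1 _ h3
        have h4 := hCs.2 j hj i hi
        rw [max_eq_left (by linarith), max_eq_left (by linarith)] at h4
        exact h4
      · intro R hR u' v' hc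
        exact ih R hR b a (fun i hi => hb i (hR.1 hi)) (fun i hi => ha i (hR.1 hi)) u' v' hc
    push Not at hw ht
    apply Packs.scale hu hv
    apply small_case
    · intro i hi
      have := ha i hi
      positivity
    · intro i hi
      have := hb i hi
      positivity
    · intro i hi
      rw [div_le_iff₀ hu]
      linarith [hw i hi]
    · intro i hi
      rw [div_le_iff₀ hv]
      linarith [ht i hi]
    · have e : ∑ k ∈ s, a k / u * (b k / v) = (∑ k ∈ s, a k * b k) / (u * v) := by
        rw [Finset.sum_div]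
        exact Finset.sum_congr rfl fun k _ => by field_simp
      rw [e, div_le_iff₀ (mul_pos hu hv)]
      linarith
    · intro R hR u' v' hc
      apply ih R hR _ _ _ _ u' v' hc
      · intro i hi
        have := ha i (hR.1 hi)
        positivity
      · intro i hi
        have := hb i (hR.1 hi)
        positivity

/-- Rectangles `a i × b i` with `b i ≤ a i ≤ 1` and total area at most `1/2` have an
axis-parallel packing in the unit square, without rotations. -/
theorem square_pack (s : Finset ι) (a b : ι → ℝ) (hb : ∀ i ∈ s, 0 < b i)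
    (hba : ∀ i ∈ s, b i ≤ a i) (ha1 : ∀ i ∈ s, a i ≤ 1)
    (hS : ∑ k ∈ s, a k * b k ≤ 1 / 2) : Packs s a b 1 1 := by
  have ha : ∀ i ∈ s, 0 < a i := fun i hi => lt_of_lt_of_le (hb i hi) (hba i hi)
  by_cases hw : ∃ j ∈ s, (1 : ℝ) / 2 < a j
  · refine packs_stack one_pos ha hb ha1 (fun i hi => (hba i hi).trans (ha1 i hi))
      (by linarith) ?_ hw ?_
    · intro j _ i hi _ h2 h3
      linarith [hba i hi]
    · intro R hR u' v' hc
      exact steinberg R a b (fun i hi => ha i (hR.1 hi)) (fun i hi => hb i (hR.1 hi)) u' v' hc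
  · push Not at hw
    apply small_case ha hb hw (fun i hi => (hba i hi).trans (hw i hi)) hS
    intro R hR u' v' hc
    exact steinberg R a b (fun i hi => ha i (hR.1 hi)) (fun i hi => hb i (hR.1 hi)) u' v' hc

end Pool.Agent.Lib.MP_93723f_co
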